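import Pool.Agent.Helper26.Ip.Asm
import Pool.Agent.Helper12.Lr.LR4
import Pool.Agent.Helper41.Lr.LR5
import Pool.Agent.Helper72.Lr.LR6
import Pool.Agent.Helper83.Lr.LR3

/-!
# Conditional moments of stationary waves: assembly (MP_6b977f_mp)
-/

set_option autoImplicit false
open MeasureTheory Filter Topology ProbabilityTheory
open scoped ContDiff ENNReal InnerProductSpace

namespace Pool.Agent.Helper26.Lr

open Pool.Agent.N661.BR (MW IsStationary IsGaussianLaw)
open Pool.Agent.Helper37.BC
open Pool.Agent.Helper26.Ip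
open Pool.Agent.Helper41.Ip (exL_exists)

noncomputable section

variable {μ : Measure MW} [IsProbabilityMeasure μ]

/-- constant conditional moments imply that the law is Gaussian -/
theorem gauss_of_reg (hs : IsStationary μ) (h2 : Integrable (fun f : MW => f 0 ^ 2) μ)
    (hR : Regression μ) : IsGaussianLaw μ := by
  refine Pool.Agent.Helper33.Ip.gauss_of_ex hs h2 fun c hc k hk => ?_
  obtain ⟨x₀, hx⟩ := Pool.Agent.Helper12.Lr.zero_exists hs h2 c
  have hp : ∀ y, ex c (V hs h2 y) = 0 := fun y =>
    Pool.Agent.Helper83.Lr.path hs h2 (lip' hs h2) (Pool.Agent.Helper41.Lr.cond1 hs h2 hR)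
      (Pool.Agent.Helper41.Lr.cond2 hs h2 hR) hc hx y
  obtain ⟨T, hT⟩ := exL_exists c
  refine values_induction hs h2 (p := fun k => ex c k = 0) ?_ hp ?_ ?_ ?_ hk
  · have : {g : Lp ℝ 2 μ | ex c g = 0} = {g | T g = 0} := by
      ext g
      simp only [Set.mem_setOf_eq, hT]
    rw [this]
    exact isClosed_eq T.continuous continuous_const
  · rw [← hT, map_zero]
  · intro g k hg hk
    rw [← hT, map_add, hT, hT, hg, hk, add_zero]
  · intro t g hg
    rw [← hT, map_smul, hT, hg, smul_zero]

/-- **Gaussian laws and constant conditional moments** -/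
theorem gauss_iff_reg (hs : IsStationary μ) (h2 : Integrable (fun f : MW => f 0 ^ 2) μ) :
    IsGaussianLaw μ ↔ Regression μ :=
  ⟨Pool.Agent.Helper72.Lr.reg_of_gauss hs h2, gauss_of_reg hs h2⟩

end

end Pool.Agent.Helper26.Lr
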