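import Pool.Agent.Helper26.Lr.Defs
import Pool.Agent.Helper26.Ip.Tools

/-!
# Conditional moments: the conditions on characteristic functionals (MP_6b977f_mp)
-/

set_option autoImplicit false
open MeasureTheory Filter Topology ProbabilityTheory
open scoped ContDiff ENNReal InnerProductSpace

namespace Pool.Agent.Helper26.Lr

open Pool.Agent.N661.BR (MW IsStationary)
open Pool.Agent.Helper26.Ip
open Complex (I)

noncomputable section

variable {μ : Measure MW} [IsProbabilityMeasure μ]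

/-- the first condition -/
def Cond1 (hs : IsStationary μ) (h2 : Integrable (fun f : MW => f 0 ^ 2) μ) : Prop :=
  ∀ c ∈ values μ, ∀ x : ℂ, ⟪c, V hs h2 x⟫_ℝ = 0 →
    ∫ f, ((V hs h2 x) f : ℂ) * Complex.exp (I * ((c f : ℝ) : ℂ)) ∂μ = 0

/-- the second condition -/
def Cond2 (hs : IsStationary μ) (h2 : Integrable (fun f : MW => f 0 ^ 2) μ) : Prop :=
  ∀ c ∈ values μ, ∀ x : ℂ, ⟪c, V hs h2 x⟫_ℝ = 0 → ∀ k ∈ values μ,
    ∫ f, ((k f * (V hs h2 x) f : ℝ) : ℂ) * Complex.exp (I * ((c f : ℝ) : ℂ)) ∂μ =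
      ((⟪k, V hs h2 x⟫_ℝ : ℝ) : ℂ) * ch c

end

end Pool.Agent.Helper26.Lr
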