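import Pool.Agent.Helper37.BC.Fin

/-!
# Conditional moments of stationary waves: definitions (MP_6b977f_mp)
-/

set_option autoImplicit false
open MeasureTheory Filter Topology ProbabilityTheory
open scoped ContDiff ENNReal

namespace Pool.Agent.Helper26.Lr

open Pool.Agent.N661.BR (MW lin)

noncomputable section

/-- the σ-algebra generated by the random variable `X` -/
abbrev sig (X : MW → ℝ) : MeasurableSpace MW := MeasurableSpace.comap X inferInstance

/-- for every finite linear combination `X = ∑ t j f (w j)` of values which is uncorrelated with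
`f 0`, the conditional mean of `f 0` given `X` is `0`, and the conditional second moment is the
constant `E f(0)²` -/
def Regression (μ : Measure MW) : Prop :=
  ∀ (k : ℕ) (w : Fin k → ℂ) (t : Fin k → ℝ), ∫ f : MW, f 0 * lin w t f ∂μ = 0 →
    μ[fun f : MW => f 0 | sig (lin w t)] =ᵐ[μ] (fun _ => 0) ∧
    μ[fun f : MW => f 0 ^ 2 | sig (lin w t)] =ᵐ[μ] fun _ => ∫ g : MW, g 0 ^ 2 ∂μ

end

end Pool.Agent.Helper26.Lr
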