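import Pool.Agent.Helper26.Lr.Defs
import Pool.Agent.Helper26.Ip.Tools
import Pool.Agent.Helper83.Ip.ETA

/-!
# Conditional moments: statements of the packages (not imported by the hand-in)
-/

set_option autoImplicit false
set_option linter.unusedSectionVars false
open MeasureTheory Filter Topology ProbabilityTheory
open scoped ContDiff ENNReal InnerProductSpace

namespace Pool.Agent.Helper26.Lr.Stm

open Pool.Agent.N661.BR (MW J0 IsStationary shift meas_eval meas_shift IsGaussianLaw lin meas_lin)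
open Pool.Agent.Helper37.BC
open Pool.Agent.Helper26.Ip
open Pool.Agent.Helper83.Ip (Phi)
open Pool.Agent.Helper26.Lr
open Complex (I)

noncomputable section

section general

variable {Ω : Type*} [MeasurableSpace Ω] {μ : Measure Ω} [IsProbabilityMeasure μ]

/-! ## Package LR1 -/

/-- LR1a -/
theorem g_cont (g : Ω → ℝ) (hg : Integrable g μ) : Continuous fun c : Lp ℝ 2 μ =>
    ∫ f, (g f : ℂ) * Complex.exp (I * ((c f : ℝ) : ℂ)) ∂μ := sorry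
/-- LR1b -/
theorem g_deriv (g c k : Lp ℝ 2 μ) : HasDerivAt (fun s : ℝ =>
    ∫ f, (g f : ℂ) * Complex.exp (I * (((c + s • k : Lp ℝ 2 μ) f : ℝ) : ℂ)) ∂μ)
      (I * ∫ f, ((g f * k f : ℝ) : ℂ) * Complex.exp (I * ((c f : ℝ) : ℂ)) ∂μ) 0 := sorry

/-! ## Package LR2 -/

/-- LR2a -/
theorem step {c v k : Lp ℝ 2 μ} (s : ℝ)
    (h1 : ∫ f, (v f : ℂ) * Complex.exp (I * ((c f : ℝ) : ℂ)) ∂μ = 0)
    (h2 : ∫ f, ((k f * v f : ℝ) : ℂ) * Complex.exp (I * ((c f : ℝ) : ℂ)) ∂μ =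
      ((⟪k, v⟫_ℝ : ℝ) : ℂ) * ch c) :
    ‖ex (c + s • v) k - ex c k‖ ≤ ‖k‖ * (1 + |s| * ‖v‖ + ‖c‖) * ‖Phi (s • v)‖ := sorry
/-- LR2b -/
theorem Phi_small (v : Lp ℝ 2 μ) (ε : ℝ) (hε : 0 < ε) : ∃ δ : ℝ, 0 < δ ∧
    ∀ s : ℝ, |s| ≤ δ → ‖Phi (s • v)‖ ≤ ε * |s| := sorry

end general

variable {μ : Measure MW} [IsProbabilityMeasure μ]

/-- LR2c -/
theorem Phi_shift (hs : IsStationary μ) (x : ℂ) (b : Lp ℝ 2 μ) : ‖Phi (S hs x b)‖ = ‖Phi b‖ := sorry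

/-- the two conditions on characteristic functionals -/
def Cond1 (hs : IsStationary μ) (h2 : Integrable (fun f : MW => f 0 ^ 2) μ) : Prop :=
  ∀ c ∈ values μ, ∀ x : ℂ, ⟪c, V hs h2 x⟫_ℝ = 0 →
    ∫ f, ((V hs h2 x) f : ℂ) * Complex.exp (I * ((c f : ℝ) : ℂ)) ∂μ = 0
def Cond2 (hs : IsStationary μ) (h2 : Integrable (fun f : MW => f 0 ^ 2) μ) : Prop :=
  ∀ c ∈ values μ, ∀ x : ℂ, ⟪c, V hs h2 x⟫_ℝ = 0 → ∀ k ∈ values μ,
    ∫ f, ((k f * (V hs h2 x) f : ℝ) : ℂ) * Complex.exp (I * ((c f : ℝ) : ℂ)) ∂μ =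
      ((⟪k, V hs h2 x⟫_ℝ : ℝ) : ℂ) * ch c

/-! ## Package LR3 (telescoping) -/

/-- LR3 -/
theorem path (hs : IsStationary μ) (h2 : Integrable (fun f : MW => f 0 ^ 2) μ)
    (hlip : ∃ C : ℝ, 0 ≤ C ∧ ∀ x : ℂ, ∀ c ∈ values μ, ‖S hs x c - c‖ ≤ C * ‖x‖ * ‖c‖)
    (h1 : Cond1 hs h2) (h3 : Cond2 hs h2) {c : Lp ℝ 2 μ} (hc : c ∈ values μ) {x₀ : ℂ}
    (hx : ⟪c, V hs h2 x₀⟫_ℝ = 0) (y : ℂ) : ex c (V hs h2 y) = 0 := sorry

/-! ## Package LR4 (zeros) -/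

/-- LR4a -/
theorem J0_neg : ∃ r : ℝ, 0 ≤ r ∧ J0 r ≤ 0 := sorry
/-- LR4b -/
theorem zero_exists (hs : IsStationary μ) (h2 : Integrable (fun f : MW => f 0 ^ 2) μ)
    (g : Lp ℝ 2 μ) : ∃ x : ℂ, ⟪g, V hs h2 x⟫_ℝ = 0 := sorry

/-! ## Package LR5 -/

/-- LR5a -/
theorem reg_exp (hs : IsStationary μ) (h2 : Integrable (fun f : MW => f 0 ^ 2) μ)
    (hR : Regression μ) (k : ℕ) (w : Fin k → ℂ) (t : Fin k → ℝ)
    (h : ∫ f : MW, f 0 * lin w t f ∂μ = 0) :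
    ∫ f : MW, (f 0 : ℂ) * Complex.exp (I * (lin w t f : ℝ)) ∂μ = 0 ∧
    ∫ f : MW, ((f 0 ^ 2 : ℝ) : ℂ) * Complex.exp (I * (lin w t f : ℝ)) ∂μ =
      ((∫ f : MW, f 0 ^ 2 ∂μ : ℝ) : ℂ) * ∫ f : MW, Complex.exp (I * (lin w t f : ℝ)) ∂μ := sorry
/-- LR5b -/
theorem cond1 (hs : IsStationary μ) (h2 : Integrable (fun f : MW => f 0 ^ 2) μ)
    (hR : Regression μ) : Cond1 hs h2 := sorry
/-- LR5c -/
theorem cond2 (hs : IsStationary μ) (h2 : Integrable (fun f : MW => f 0 ^ 2) μ)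
    (hR : Regression μ) : Cond2 hs h2 := sorry

/-! ## Package LR6 -/

/-- LR6 -/
theorem reg_of_gauss (hs : IsStationary μ) (h2 : Integrable (fun f : MW => f 0 ^ 2) μ)
    (hG : IsGaussianLaw μ) : Regression μ := sorry

end

end Pool.Agent.Helper26.Lr.Stm
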